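import Pool.Agent.helper53.ORT.Spec

/-!
# Row ort:RO (MP_561ff4_al): products of two reflections in the commutator subgroup
-/

set_option autoImplicit false

namespace Pool.Agent.ORT

open Module Pool.Agent.GS

theorem RO_aux {F V : Type} [Field F] [AddCommGroup V] [Module F V]
    {B : LinearMap.BilinForm F V} (hB : Sym B) {a b v w : V}
    (h : rf B v a = w) (hw : rf B w = rf B b) : rf B a * rf B b ∈ Om B := by
  have h1 : rf B v * rf B a * (rf B v)⁻¹ = rf B b := by
    rw [rf_conj_sp (rf_mem hB v) a, h, hw]
  have h2 : rf B a * rf B b = rf B a * rf B v * (rf B a)⁻¹ * (rf B v)⁻¹ := by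
    rw [← h1, rf_inv a]
    simp only [mul_assoc]
  rw [h2]
  exact Subgroup.commutator_mem_commutator (rf_mem hB a) (rf_mem hB v)

theorem RO : RO_stmt := by
  intro F V _ _ _ B h2 hB a b ha hb hs
  have h2' : (2 : F) ≠ 0 := Ring.two_ne_zero h2
  obtain ⟨s, hs⟩ := hs
  have hs0 : s ≠ 0 := by
    rintro rfl
    rw [mul_zero] at hs
    exact (mul_ne_zero ha hb) hs
  have hc : B a a / s ≠ 0 := div_ne_zero ha hs0
  obtain ⟨b', hb'⟩ : ∃ b', b' = (B a a / s) • b := ⟨_, rfl⟩
  have hrb : rf B b' = rf B b := by rw [hb', rf_smul hc]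
  have hN : B b' b' = B a a := by
    rw [hb']
    simp only [map_smul, LinearMap.smul_apply, smul_eq_mul]
    have e : B a a / s * (B a a / s * B b b) = B a a * (B a a * B b b) / (s * s) := by
      field_simp
    rw [e, hs]
    field_simp
  have hab : B b' a = B a b' := hB.symm b' a
  by_cases h : B (a - b') (a - b') = 0
  · have hp : B (a + b') (a + b') ≠ 0 := by
      intro h'
      have e : B (a - b') (a - b') + B (a + b') (a + b') = 4 * B a a := by
        simp only [map_sub, map_add, LinearMap.sub_apply, LinearMap.add_apply]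
        rw [hN]
        ring
      rw [h, h', add_zero] at e
      have h4 : (4 : F) ≠ 0 := by
        have : (4 : F) = 2 * 2 := by norm_num
        rw [this]
        exact mul_ne_zero h2' h2'
      exact (mul_ne_zero h4 ha) e.symm
    refine RO_aux hB (v := a + b') (w := -b') ?_ ?_
    · rw [rf_apply hp]
      have e : 2 * B a (a + b') / B (a + b') (a + b') = 1 := by
        rw [div_eq_one_iff_eq hp]
        simp only [map_add, LinearMap.add_apply]
        rw [hN, hab]
        ring
      rw [e, one_smul]
      abel
    · have : -b' = (-1 : F) • b' := by rw [neg_smul, one_smul]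
      rw [this, rf_smul (neg_ne_zero.2 one_ne_zero), hrb]
  · refine RO_aux hB (v := a - b') (w := b') ?_ hrb
    rw [rf_apply h]
    have e : 2 * B a (a - b') / B (a - b') (a - b') = 1 := by
      rw [div_eq_one_iff_eq h]
      simp only [map_sub, LinearMap.sub_apply]
      rw [hN, hab]
      ring
    rw [e, one_smul]
    abel

end Pool.Agent.ORT
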